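import Pool.Agent.Helper59.LUC.Goals

set_option autoImplicit false

namespace Pool.Agent.Helper59.LUC

namespace PkGS

open IntermediateField

/-- Gauss sum: a square root of `p*` in any field containing the `p`-th roots of unity. -/
lemma gauss (K : IntermediateField ℚ ℂ) (p : ℕ) (hp : p.Prime) (h2 : p ≠ 2) (ξ : ℂ)
    (hξ : IsPrimitiveRoot ξ p) (hK : ξ ∈ K) :
    ∃ s : ℂ, s ∈ K ∧ s ^ 2 = ((ZMod.χ₄ (p : ZMod 4) : ℤ) : ℂ) * (p : ℂ) := by
  classical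
  haveI : Fact p.Prime := ⟨hp⟩
  haveI : NeZero p := ⟨hp.ne_zero⟩
  have hchar : ringChar (ZMod p) ≠ 2 := by rwa [ZMod.ringChar_zmod_n]
  have hinj : Function.Injective (Int.castRingHom ℂ) := Int.cast_injective
  set χ : MulChar (ZMod p) ℂ := (quadraticChar (ZMod p)).ringHomComp (Int.castRingHom ℂ) with hχ
  set ψ := AddChar.zmodChar p ((IsPrimitiveRoot.iff_def ξ p).mp hξ).left with hψ
  have hχ1 : χ ≠ 1 := by
    rw [hχ]
    exact (MulChar.ringHomComp_ne_one_iff hinj).2 (quadraticChar_ne_one hchar)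
  have hχ2 : χ.IsQuadratic := (quadraticChar_isQuadratic (ZMod p)).comp _
  have hψp : ψ.IsPrimitive := AddChar.zmodChar_primitive_of_primitive_root p hξ
  refine ⟨gaussSum χ ψ, ?_, ?_⟩
  · unfold gaussSum
    refine sum_mem fun a _ => mul_mem ?_ ?_
    · rw [hχ, MulChar.ringHomComp_apply]
      exact intCast_mem K _
    · rw [hψ, AddChar.zmodChar_apply]
      exact pow_mem hK _
  · rw [gaussSum_sq hχ1 hχ2 hψp, hχ, MulChar.ringHomComp_apply, quadraticChar_neg_one hchar,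
      ZMod.card]
    rfl

lemma odd_part (K : IntermediateField ℚ ℂ) (r : ℕ) (hr : 0 < r) (ζ : ℂ) (hζ : IsPrimitiveRoot ζ r)
    (hK : ζ ∈ K) (d : ℕ) : d % 2 = 1 → d ∣ r →
    ∃ s : ℂ, s ∈ K ∧ s ^ 2 = ((ZMod.χ₄ (d : ZMod 4) : ℤ) : ℂ) * (d : ℂ) := by
  induction d using induction_on_primes with
  | zero => intro h; omega
  | one => intro _ _; exact ⟨1, one_mem K, by simp⟩
  | prime_mul p a hp ih =>
    intro ho hd
    have hpo : p % 2 = 1 := by
      rcases Nat.mod_two_eq_zero_or_one p with h | h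
      · exfalso
        have : (p * a) % 2 = 0 := by rw [Nat.mul_mod, h]; simp
        omega
      · exact h
    have hao : a % 2 = 1 := by
      rcases Nat.mod_two_eq_zero_or_one a with h | h
      · exfalso
        have : (p * a) % 2 = 0 := by rw [Nat.mul_mod, h]; simp
        omega
      · exact h
    obtain ⟨s, hs, hs2⟩ := ih hao ((Dvd.intro_left p rfl).trans hd)
    obtain ⟨m, hm⟩ : p ∣ r := (Dvd.intro a rfl).trans hd
    have hξ : IsPrimitiveRoot (ζ ^ m) p := hζ.pow hr (by rw [hm, mul_comm])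
    obtain ⟨g, hg, hg2⟩ := gauss K p hp (by rintro rfl; omega) (ζ ^ m) hξ (pow_mem hK m)
    refine ⟨g * s, mul_mem hg hs, ?_⟩
    rw [mul_pow, hg2, hs2]
    push_cast
    rw [map_mul]
    push_cast
    ring

lemma four (K : IntermediateField ℚ ℂ) (r : ℕ) (hr : 0 < r) (ζ : ℂ) (hζ : IsPrimitiveRoot ζ r)
    (hK : ζ ∈ K) (h4 : 4 ∣ r) : ∃ s : ℂ, s ∈ K ∧ s ^ 2 = -1 := by
  obtain ⟨m, hm⟩ := h4
  have h1 : IsPrimitiveRoot (ζ ^ m) 4 := hζ.pow hr (by rw [hm, mul_comm])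
  have h2 : IsPrimitiveRoot ((ζ ^ m) ^ 2) 2 := h1.pow (by norm_num) (by norm_num)
  exact ⟨ζ ^ m, pow_mem hK m, h2.eq_neg_one_of_two_right⟩

lemma eight (K : IntermediateField ℚ ℂ) (r : ℕ) (hr : 0 < r) (ζ : ℂ) (hζ : IsPrimitiveRoot ζ r)
    (hK : ζ ∈ K) (h8 : 8 ∣ r) : ∃ s : ℂ, s ∈ K ∧ s ^ 2 = 2 := by
  obtain ⟨m, hm⟩ := h8
  have h1 : IsPrimitiveRoot (ζ ^ m) 8 := hζ.pow hr (by rw [hm, mul_comm])
  have h2 : IsPrimitiveRoot ((ζ ^ m) ^ 4) 2 := h1.pow (by norm_num) (by norm_num)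
  have h3 : (ζ ^ m) ^ 4 = -1 := h2.eq_neg_one_of_two_right
  have h0 : ζ ^ m ≠ 0 := h1.ne_zero (by norm_num)
  refine ⟨ζ ^ m + (ζ ^ m)⁻¹, add_mem (pow_mem hK m) (inv_mem (pow_mem hK m)), ?_⟩
  generalize ζ ^ m = x at h3 h0
  field_simp
  linear_combination h3

lemma chi_odd (d : ℕ) (h : d % 2 = 1) :
    (d % 4 = 1 ∧ (ZMod.χ₄ (d : ZMod 4) : ℤ) = 1) ∨ (d % 4 = 3 ∧ (ZMod.χ₄ (d : ZMod 4) : ℤ) = -1) := by
  have : d % 4 = 1 ∨ d % 4 = 3 := by omega
  rcases this with h1 | h1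
  · exact Or.inl ⟨h1, ZMod.χ₄_nat_one_mod_four h1⟩
  · exact Or.inr ⟨h1, ZMod.χ₄_nat_three_mod_four h1⟩

theorem thm : G_GS := by
  intro d r hsq hr hd ζ hζ
  set K := IntermediateField.adjoin ℚ {ζ} with hKdef
  have hK : ζ ∈ K := IntermediateField.mem_adjoin_simple_self ℚ ζ
  have hr0 : 0 < r := hr
  have key3 : d % 4 = 3 → d ∣ r → ∃ s : ℂ, s ^ 2 = -(d : ℂ) ∧ s ∈ K := by
    intro h3 hdr
    obtain ⟨s, hs, hs2⟩ := odd_part K r hr0 ζ hζ hK d (by omega) hdr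
    refine ⟨s, ?_, hs⟩
    rw [hs2, ZMod.χ₄_nat_three_mod_four h3]
    push_cast
    ring
  rcases hd with ⟨h3, hdr⟩ | h4
  · exact key3 h3 hdr
  · obtain ⟨i, hi, hi2⟩ := four K r hr0 ζ hζ hK ((Dvd.intro d rfl).trans h4)
    rcases Nat.mod_two_eq_zero_or_one d with he | ho
    · obtain ⟨e, rfl⟩ : 2 ∣ d := Nat.dvd_of_mod_eq_zero he
      have heo : e % 2 = 1 := by
        rcases Nat.mod_two_eq_zero_or_one e with h | h
        · exfalso
          have h22 : 2 * 2 ∣ 2 * e := Nat.mul_dvd_mul_left 2 (Nat.dvd_of_mod_eq_zero h)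
          have := Nat.isUnit_iff.1 (hsq 2 h22)
          omega
        · exact h
      obtain ⟨t, ht, ht2⟩ := eight K r hr0 ζ hζ hK
        ((Dvd.intro e (by ring : 8 * e = 4 * (2 * e))).trans h4)
      obtain ⟨s, hs, hs2⟩ := odd_part K r hr0 ζ hζ hK e heo
        ((Dvd.intro_left 8 (by ring : 8 * e = 4 * (2 * e))).trans h4)
      rcases chi_odd e heo with ⟨_, hc⟩ | ⟨_, hc⟩
      · refine ⟨i * (t * s), ?_, mul_mem hi (mul_mem ht hs)⟩
        rw [mul_pow, mul_pow, hi2, ht2, hs2, hc]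
        push_cast
        ring
      · refine ⟨t * s, ?_, mul_mem ht hs⟩
        rw [mul_pow, ht2, hs2, hc]
        push_cast
        ring
    · have hdr : d ∣ r := (Dvd.intro_left 4 rfl).trans h4
      rcases chi_odd d ho with ⟨_, hc⟩ | ⟨h3, _⟩
      · obtain ⟨s, hs, hs2⟩ := odd_part K r hr0 ζ hζ hK d ho hdr
        refine ⟨i * s, ?_, mul_mem hi hs⟩
        rw [mul_pow, hi2, hs2, hc]
        push_cast
        ring
      · exact key3 h3 hdr

end PkGS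

end Pool.Agent.Helper59.LUC
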